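import Mathlib

/-!
# Maximum nullity and zero forcing of bipartite graphs with one side of degree three

The incidence graph of the Fano plane in which every line is repeated nine times has maximum nullity
smaller than its zero forcing number.
-/

namespace Pool.Agent.Results.MP_cfc379_co.FanoCounterexample

/-! ## The notions of the question -/

variable {V : Type} [Fintype V]

/-- The nullity of a real square matrix. -/
noncomputable def nullity (A : Matrix V V ℝ) : ℕ :=
  Module.finrank ℝ (LinearMap.ker A.mulVecLin)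

/-- The real symmetric matrices with graph `G`; the diagonal is free. -/
def IsMatrixOf (G : SimpleGraph V) (A : Matrix V V ℝ) : Prop :=
  A.IsSymm ∧ ∀ i j, i ≠ j → (A i j ≠ 0 ↔ G.Adj i j)

/-- The maximum nullity `M(G)`. -/
noncomputable def maxNullity (G : SimpleGraph V) : ℕ :=
  sSup {k | ∃ A : Matrix V V ℝ, IsMatrixOf G A ∧ nullity A = k}

/-- The vertices that become filled, when one starts with the set `B` of filled vertices and applies
the colour change rule repeatedly: if `u` is filled and all its neighbours different from its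
neighbour `w` are filled, then `w` becomes filled. -/
inductive Filled (G : SimpleGraph V) (B : Finset V) : V → Prop
  | base (v : V) : v ∈ B → Filled G B v
  | step (u w : V) : Filled G B u → G.Adj u w → (∀ v, G.Adj u v → v ≠ w → Filled G B v) →
      Filled G B w

/-- Zero forcing sets. -/
def IsZeroForcing (G : SimpleGraph V) (B : Finset V) : Prop := ∀ v, Filled G B v

/-- The zero forcing number `Z(G)`. -/
noncomputable def zeroForcingNumber (G : SimpleGraph V) : ℕ :=
  sInf {k | ∃ B : Finset V, IsZeroForcing G B ∧ B.card = k}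

/-! ## Zero forcing bounds the nullity over every field -/

theorem nullity_le {K : Type} [Field K] (G : SimpleGraph V) (A : Matrix V V K)
    (hA : ∀ i j, i ≠ j → (A i j ≠ 0 ↔ G.Adj i j)) (B : Finset V) (hB : IsZeroForcing G B) :
    Module.finrank K (LinearMap.ker A.mulVecLin) ≤ B.card := by
  classical
  have hvan : ∀ x : V → K, A.mulVec x = 0 → (∀ v ∈ B, x v = 0) → x = 0 := by
    intro x hx hxB
    have hall : ∀ v, Filled G B v → x v = 0 := by
      intro v hv
      induction hv with
      | base v hv => exact hxB v hv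
      | step u w _ huw _ ihu ihv =>
        have h := congrFun hx u
        rw [Matrix.mulVec, dotProduct, Finset.sum_eq_single w] at h
        · rcases mul_eq_zero.mp h with h' | h'
          · exact absurd h' ((hA u w huw.ne).mpr huw)
          · exact h'
        · intro v _ hvw
          by_cases huv : u = v
          · subst huv
            rw [ihu, mul_zero]
          · by_cases hadj : G.Adj u v
            · rw [ihv v hadj hvw, mul_zero]
            · have : A u v = 0 := by
                by_contra hne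
                exact hadj ((hA u v huv).mp hne)
              rw [this, zero_mul]
        · intro h'
          exact absurd (Finset.mem_univ _) h'
    funext v
    exact hall v (hB v)
  let r : LinearMap.ker A.mulVecLin →ₗ[K] (B → K) :=
    (LinearMap.funLeft K K (fun b : B => (b : V))).comp (Submodule.subtype _)
  have hr : Function.Injective r := by
    rw [← LinearMap.ker_eq_bot, LinearMap.ker_eq_bot']
    intro x hx
    apply Subtype.ext
    refine hvan x.1 (LinearMap.mem_ker.mp x.2) ?_
    intro v hv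
    exact congrFun hx ⟨v, hv⟩
  have := LinearMap.finrank_le_finrank_of_injective hr
  simpa using this

/-! ## The graph -/

/-- Incidence in the Fano plane: the points of the line `l` are `l`, `l + 1` and `l + 3` modulo `7`. -/
def inc (l p : Fin 7) : Prop := p = l ∨ p = l + 1 ∨ p = l + 3

instance : DecidableRel inc := fun l p => inferInstanceAs (Decidable (p = l ∨ p = l + 1 ∨ p = l + 3))

/-- The incidence graph of the Fano plane, every line being repeated nine times. -/
def fano : SimpleGraph ((Fin 7 × Fin 9) ⊕ Fin 7) where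
  Adj u v := match u, v with
    | Sum.inl a, Sum.inr p => inc a.1 p
    | Sum.inr p, Sum.inl a => inc a.1 p
    | _, _ => False
  symm := ⟨by
    rintro (a | p) (b | q) h
    · exact h
    · exact h
    · exact h
    · exact h⟩
  loopless := ⟨by
    rintro (a | p) h
    · exact h
    · exact h⟩

theorem fano_inl_inr (a : Fin 7 × Fin 9) (p : Fin 7) :
    fano.Adj (Sum.inl a) (Sum.inr p) ↔ inc a.1 p := Iff.rfl

theorem fano_inr_inl (a : Fin 7 × Fin 9) (p : Fin 7) :
    fano.Adj (Sum.inr p) (Sum.inl a) ↔ inc a.1 p := Iff.rfl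

theorem fano_inl_inl (a b : Fin 7 × Fin 9) : ¬ fano.Adj (Sum.inl a) (Sum.inl b) := fun h => h

theorem fano_inr_inr (p q : Fin 7) : ¬ fano.Adj (Sum.inr p) (Sum.inr q) := fun h => h

/-! ## The lower bound for the zero forcing number, over the field with two elements -/

/-- The adjacency matrix over the field with two elements. -/
def A2 : Matrix ((Fin 7 × Fin 9) ⊕ Fin 7) ((Fin 7 × Fin 9) ⊕ Fin 7) (ZMod 2) := fun u v =>
  match u, v with
    | Sum.inl a, Sum.inr p => if inc a.1 p then 1 else 0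
    | Sum.inr p, Sum.inl a => if inc a.1 p then 1 else 0
    | _, _ => 0

theorem A2_pattern (i j : (Fin 7 × Fin 9) ⊕ Fin 7) (_ : i ≠ j) : A2 i j ≠ 0 ↔ fano.Adj i j := by
  rcases i with a | p <;> rcases j with b | q
  · simp [A2, fano_inl_inl]
  · by_cases h : inc a.1 q <;> simp [A2, fano_inl_inr, h]
  · by_cases h : inc b.1 p <;> simp [A2, fano_inr_inl, h]
  · simp [A2, fano_inr_inr]

theorem A2_inl (z : (Fin 7 × Fin 9) ⊕ Fin 7 → ZMod 2) (a : Fin 7 × Fin 9) :
    A2.mulVec z (Sum.inl a) = ∑ p, if inc a.1 p then z (Sum.inr p) else 0 := by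
  rw [Matrix.mulVec, dotProduct, Fintype.sum_sum_type]
  simp [A2]

theorem A2_inr (z : (Fin 7 × Fin 9) ⊕ Fin 7 → ZMod 2) (p : Fin 7) :
    A2.mulVec z (Sum.inr p) = ∑ l, if inc l p then ∑ c, z (Sum.inl (l, c)) else 0 := by
  rw [Matrix.mulVec, dotProduct, Fintype.sum_sum_type, Fintype.sum_prod_type]
  simp only [A2, ite_mul, one_mul, zero_mul, Finset.sum_const_zero, add_zero]
  refine Finset.sum_congr rfl fun l _ => ?_
  by_cases h : inc l p <;> simp [h]

theorem lines2 (y : Fin 7 → ZMod 2)
    (h : ∀ l : Fin 7, l.val < 4 → (∑ p, if inc l p then y p else 0) = 0) (l : Fin 7) :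
    (∑ p, if inc l p then y p else 0) = 0 := by
  have h0 := h 0 (by decide)
  have h1 := h 1 (by decide)
  have h2 := h 2 (by decide)
  have h3 := h 3 (by decide)
  have two : (2 : ZMod 2) = 0 := rfl
  simp only [Fin.sum_univ_seven] at *
  revert h0 h1 h2 h3
  fin_cases l <;>
  · simp (decide := true) only [if_true, if_false, zero_add, add_zero]
    intro h0 h1 h2 h3
    first
    | exact h0
    | exact h1
    | exact h2
    | exact h3
    | linear_combination h0 + h1 + h2 - (y 1 + y 2 + y 3) * two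
    | linear_combination h1 + h2 + h3 - (y 2 + y 3 + y 4) * two
    | linear_combination h0 + h1 + h3 - (y 1 + y 3 + y 4) * two

theorem points2 (s : Fin 7 → ZMod 2)
    (h : ∀ p : Fin 7, p.val < 4 → (∑ l, if inc l p then s l else 0) = 0) (p : Fin 7) :
    (∑ l, if inc l p then s l else 0) = 0 := by
  have h0 := h 0 (by decide)
  have h1 := h 1 (by decide)
  have h2 := h 2 (by decide)
  have h3 := h 3 (by decide)
  have two : (2 : ZMod 2) = 0 := rfl
  simp only [Fin.sum_univ_seven] at *
  revert h0 h1 h2 h3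
  fin_cases p <;>
  · simp (decide := true) only [if_true, if_false, zero_add, add_zero]
    intro h0 h1 h2 h3
    first
    | exact h0
    | exact h1
    | exact h2
    | exact h3
    | linear_combination h0 + h2 + h3 - (s 0 + s 6 + s 2) * two
    | linear_combination h0 + h1 + h2 - (s 0 + s 6 + s 1) * two
    | linear_combination h1 + h2 + h3 - (s 0 + s 1 + s 2) * two

/-- Eight rows of the matrix. -/
def rows : Fin 4 ⊕ Fin 4 → (Fin 7 × Fin 9) ⊕ Fin 7
  | Sum.inl i => Sum.inl (i.castLE (by norm_num), 0)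
  | Sum.inr i => Sum.inr (i.castLE (by norm_num))

theorem A2_nullity : 62 ≤ Module.finrank (ZMod 2) (LinearMap.ker A2.mulVecLin) := by
  have hle : LinearMap.ker (A2.submatrix rows id).mulVecLin ≤ LinearMap.ker A2.mulVecLin := by
    intro z hz
    rw [LinearMap.mem_ker, Matrix.mulVecLin_apply] at hz ⊢
    have hr : ∀ r, A2.mulVec z (rows r) = 0 := fun r => congrFun hz r
    funext u
    rcases u with a | p
    · rw [A2_inl, Pi.zero_apply]
      refine lines2 (fun p => z (Sum.inr p)) ?_ a.1
      intro l hl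
      have := hr (Sum.inl ⟨l.val, hl⟩)
      rw [rows, A2_inl] at this
      exact this
    · rw [A2_inr, Pi.zero_apply]
      refine points2 (fun l => ∑ c, z (Sum.inl (l, c))) ?_ p
      intro q hq
      have := hr (Sum.inr ⟨q.val, hq⟩)
      rw [rows, A2_inr] at this
      exact this
  have h1 := LinearMap.finrank_range_add_finrank_ker (A2.submatrix rows id).mulVecLin
  have h2 : Module.finrank (ZMod 2) (LinearMap.range (A2.submatrix rows id).mulVecLin) ≤ 8 := by
    refine (Submodule.finrank_le _).trans ?_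
    simp
  have h3 := Submodule.finrank_mono hle
  have h4 : Module.finrank (ZMod 2) ((Fin 7 × Fin 9) ⊕ Fin 7 → ZMod 2) = 70 := by simp
  omega

theorem zeroForcing_ge : 62 ≤ zeroForcingNumber fano := by
  refine le_csInf ?_ ?_
  · exact ⟨_, Finset.univ, fun v => Filled.base v (Finset.mem_univ _), rfl⟩
  · rintro k ⟨B, hB, rfl⟩
    exact A2_nullity.trans (nullity_le fano A2 A2_pattern B hB)

/-! ## The Fano plane over the reals -/

/-- A real null vector of a matrix with the pattern of the Fano plane. -/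
theorem row_eq (B : Matrix (Fin 7) (Fin 7) ℝ) (hB : ∀ l p, ¬ inc l p → B l p = 0) (y : Fin 7 → ℝ)
    (hy : B.mulVec y = 0) (l : Fin 7) :
    B l l * y l + B l (l + 1) * y (l + 1) + B l (l + 3) * y (l + 3) = 0 := by
  have h := congrFun hy l
  rw [Matrix.mulVec, dotProduct, Fin.sum_univ_seven, Pi.zero_apply] at h
  rw [← h]
  fin_cases l
  · simp [hB 0 2 (by decide), hB 0 4 (by decide), hB 0 5 (by decide), hB 0 6 (by decide)]
  · simp [hB 1 0 (by decide), hB 1 3 (by decide), hB 1 5 (by decide), hB 1 6 (by decide)]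
  · simp [hB 2 0 (by decide), hB 2 1 (by decide), hB 2 4 (by decide), hB 2 6 (by decide)]
  · simp [hB 3 0 (by decide), hB 3 1 (by decide), hB 3 2 (by decide), hB 3 5 (by decide)]
  · simp [hB 4 1 (by decide), hB 4 2 (by decide), hB 4 3 (by decide), hB 4 6 (by decide)]
    ring
  · simp [hB 5 0 (by decide), hB 5 2 (by decide), hB 5 3 (by decide), hB 5 4 (by decide)]
    ring
  · simp [hB 6 1 (by decide), hB 6 3 (by decide), hB 6 4 (by decide), hB 6 5 (by decide)]
    ring

/-- The kernel of a real matrix with the pattern of the Fano plane has dimension at most two. -/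
theorem kernel_le (B : Matrix (Fin 7) (Fin 7) ℝ) (hB : ∀ l p, B l p ≠ 0 ↔ inc l p) :
    Module.finrank ℝ (LinearMap.ker B.mulVecLin) ≤ 2 := by
  have hB0 : ∀ l p, ¬ inc l p → B l p = 0 := fun l p h => by
    by_contra hne
    exact h ((hB l p).mp hne)
  have hrow : ∀ y : Fin 7 → ℝ, B.mulVec y = 0 →
      (B 0 0 * y 0 + B 0 1 * y 1 + B 0 3 * y 3 = 0) ∧
      (B 1 1 * y 1 + B 1 2 * y 2 + B 1 4 * y 4 = 0) ∧
      (B 2 2 * y 2 + B 2 3 * y 3 + B 2 5 * y 5 = 0) ∧
      (B 3 3 * y 3 + B 3 4 * y 4 + B 3 6 * y 6 = 0) ∧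
      (B 4 4 * y 4 + B 4 5 * y 5 + B 4 0 * y 0 = 0) ∧
      (B 5 5 * y 5 + B 5 6 * y 6 + B 5 1 * y 1 = 0) ∧
      (B 6 6 * y 6 + B 6 0 * y 0 + B 6 2 * y 2 = 0) := by
    intro y hy
    exact ⟨row_eq B hB0 y hy 0, row_eq B hB0 y hy 1, row_eq B hB0 y hy 2, row_eq B hB0 y hy 3,
      row_eq B hB0 y hy 4, row_eq B hB0 y hy 5, row_eq B hB0 y hy 6⟩
  have n01 : B 0 1 ≠ 0 := (hB _ _).mpr (by decide)
  have n03 : B 0 3 ≠ 0 := (hB _ _).mpr (by decide)
  have n00 : B 0 0 ≠ 0 := (hB _ _).mpr (by decide)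
  have n11 : B 1 1 ≠ 0 := (hB _ _).mpr (by decide)
  have n12 : B 1 2 ≠ 0 := (hB _ _).mpr (by decide)
  have n14 : B 1 4 ≠ 0 := (hB _ _).mpr (by decide)
  have n22 : B 2 2 ≠ 0 := (hB _ _).mpr (by decide)
  have n23 : B 2 3 ≠ 0 := (hB _ _).mpr (by decide)
  have n25 : B 2 5 ≠ 0 := (hB _ _).mpr (by decide)
  have n33 : B 3 3 ≠ 0 := (hB _ _).mpr (by decide)
  have n34 : B 3 4 ≠ 0 := (hB _ _).mpr (by decide)
  have n36 : B 3 6 ≠ 0 := (hB _ _).mpr (by decide)
  have n44 : B 4 4 ≠ 0 := (hB _ _).mpr (by decide)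
  have n45 : B 4 5 ≠ 0 := (hB _ _).mpr (by decide)
  have n40 : B 4 0 ≠ 0 := (hB _ _).mpr (by decide)
  have n55 : B 5 5 ≠ 0 := (hB _ _).mpr (by decide)
  have n56 : B 5 6 ≠ 0 := (hB _ _).mpr (by decide)
  have n51 : B 5 1 ≠ 0 := (hB _ _).mpr (by decide)
  have n66 : B 6 6 ≠ 0 := (hB _ _).mpr (by decide)
  have n60 : B 6 0 ≠ 0 := (hB _ _).mpr (by decide)
  have n62 : B 6 2 ≠ 0 := (hB _ _).mpr (by decide)
  -- the restriction to three points of a triangle
  let r : LinearMap.ker B.mulVecLin →ₗ[ℝ] (Fin 3 → ℝ) :=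
    (LinearMap.funLeft ℝ ℝ (fun i : Fin 3 => (i.castLE (by norm_num) : Fin 7))).comp
      (Submodule.subtype _)
  have hr0 : ∀ z : LinearMap.ker B.mulVecLin, r z 0 = z.1 0 := fun z => rfl
  have hr1 : ∀ z : LinearMap.ker B.mulVecLin, r z 1 = z.1 1 := fun z => rfl
  have hr2 : ∀ z : LinearMap.ker B.mulVecLin, r z 2 = z.1 2 := fun z => rfl
  have hinj : Function.Injective r := by
    rw [← LinearMap.ker_eq_bot, LinearMap.ker_eq_bot']
    intro z hz
    have z0 : z.1 0 = 0 := by rw [← hr0, hz]; rfl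
    have z1 : z.1 1 = 0 := by rw [← hr1, hz]; rfl
    have z2 : z.1 2 = 0 := by rw [← hr2, hz]; rfl
    obtain ⟨e0, e1, e2, e3, e4, e5, e6⟩ := hrow z.1 (LinearMap.mem_ker.mp z.2)
    rw [z0, z1] at e0
    have z3 : z.1 3 = 0 := by simpa [n03] using e0
    rw [z1, z2] at e1
    have z4 : z.1 4 = 0 := by simpa [n14] using e1
    rw [z2, z3] at e2
    have z5 : z.1 5 = 0 := by simpa [n25] using e2
    rw [z3, z4] at e3
    have z6 : z.1 6 = 0 := by simpa [n36] using e3
    apply Subtype.ext
    funext i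
    fin_cases i
    · exact z0
    · exact z1
    · exact z2
    · exact z3
    · exact z4
    · exact z5
    · exact z6
  by_contra hcon
  push Not at hcon
  have hle := LinearMap.finrank_le_finrank_of_injective hinj
  have h3 : Module.finrank ℝ (Fin 3 → ℝ) = 3 := by simp
  have heq : Module.finrank ℝ (LinearMap.ker B.mulVecLin) = Module.finrank ℝ (Fin 3 → ℝ) := by
    omega
  have hsurj : Function.Surjective r :=
    (LinearMap.injective_iff_surjective_of_finrank_eq_finrank heq).mp hinj
  obtain ⟨p, hp⟩ := hsurj ![1, 0, 0]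
  obtain ⟨q, hq⟩ := hsurj ![0, 1, 0]
  obtain ⟨t, ht⟩ := hsurj ![0, 0, 1]
  have p0 : p.1 0 = 1 := by rw [← hr0, hp]; rfl
  have p1 : p.1 1 = 0 := by rw [← hr1, hp]; rfl
  have p2 : p.1 2 = 0 := by rw [← hr2, hp]; rfl
  have q0 : q.1 0 = 0 := by rw [← hr0, hq]; rfl
  have q1 : q.1 1 = 1 := by rw [← hr1, hq]; rfl
  have q2 : q.1 2 = 0 := by rw [← hr2, hq]; rfl
  have t0 : t.1 0 = 0 := by rw [← hr0, ht]; rfl
  have t1 : t.1 1 = 0 := by rw [← hr1, ht]; rfl
  have t2 : t.1 2 = 1 := by rw [← hr2, ht]; rfl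
  obtain ⟨a0, a1, a2, a3, a4, a5, a6⟩ := hrow p.1 (LinearMap.mem_ker.mp p.2)
  obtain ⟨b0, b1, b2, b3, b4, b5, b6⟩ := hrow q.1 (LinearMap.mem_ker.mp q.2)
  obtain ⟨c0, c1, c2, c3, c4, c5, c6⟩ := hrow t.1 (LinearMap.mem_ker.mp t.2)
  rw [p0, p1] at a0
  rw [p1, p2] at a1
  rw [p2] at a2
  rw [p0] at a4
  rw [p1] at a5
  rw [p0, p2] at a6
  rw [q0, q1] at b0
  rw [q1, q2] at b1
  rw [q2] at b2
  rw [q0] at b4
  rw [q1] at b5
  rw [q0, q2] at b6
  rw [t0, t1] at c0
  rw [t1, t2] at c1
  rw [t2] at c2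
  rw [t0] at c4
  rw [t1] at c5
  rw [t0, t2] at c6
  have p4 : p.1 4 = 0 := by simpa [n14] using a1
  have q6 : q.1 6 = 0 := by simpa [n66] using b6
  have t3 : t.1 3 = 0 := by simpa [n03] using c0
  rw [p4] at a3 a4
  rw [q6] at b3 b5
  rw [t3] at c2 c3
  have hp3 : p.1 3 ≠ 0 := by
    intro h; rw [h] at a0; exact n00 (by linarith)
  have hp6 : p.1 6 ≠ 0 := by
    intro h; rw [h] at a6; exact n60 (by linarith)
  have hp5 : p.1 5 ≠ 0 := by
    intro h; rw [h] at a4; exact n40 (by linarith)
  have hq3 : q.1 3 ≠ 0 := by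
    intro h; rw [h] at b0; exact n01 (by linarith)
  have hq4 : q.1 4 ≠ 0 := by
    intro h; rw [h] at b1; exact n11 (by linarith)
  have hq5 : q.1 5 ≠ 0 := by
    intro h; rw [h] at b5; exact n51 (by linarith)
  have ht4 : t.1 4 ≠ 0 := by
    intro h; rw [h] at c1; exact n12 (by linarith)
  have ht5 : t.1 5 ≠ 0 := by
    intro h; rw [h] at c2; exact n22 (by linarith)
  have ht6 : t.1 6 ≠ 0 := by
    intro h; rw [h] at c6; exact n62 (by linarith)
  -- the relations
  have r2 : p.1 3 * q.1 5 = q.1 3 * p.1 5 := by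
    apply mul_left_cancel₀ (mul_ne_zero n23 n25)
    linear_combination B 2 5 * q.1 5 * a2 - B 2 5 * p.1 5 * b2
  have r4 : q.1 4 * t.1 5 = t.1 4 * q.1 5 := by
    apply mul_left_cancel₀ (mul_ne_zero n44 n45)
    linear_combination B 4 5 * t.1 5 * b4 - B 4 5 * q.1 5 * c4
  have r5 : p.1 5 * t.1 6 = p.1 6 * t.1 5 := by
    apply mul_left_cancel₀ (mul_ne_zero n55 n56)
    linear_combination B 5 6 * t.1 6 * a5 - B 5 6 * p.1 6 * c5
  have r3 : p.1 3 * q.1 4 * t.1 6 = - (q.1 3 * t.1 4 * p.1 6) := by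
    apply mul_left_cancel₀ (mul_ne_zero (mul_ne_zero n33 n34) n36)
    linear_combination B 3 4 * q.1 4 * B 3 6 * t.1 6 * a3 - B 3 6 * p.1 6 * B 3 6 * t.1 6 * b3
      + B 3 6 * p.1 6 * B 3 3 * q.1 3 * c3
  have key : 2 * (q.1 3 * t.1 4 * p.1 6 * p.1 5 * q.1 5 * t.1 5) = 0 := by
    linear_combination p.1 5 * q.1 5 * t.1 5 * r3 - p.1 5 * q.1 4 * t.1 5 * t.1 6 * r2
      - q.1 3 * p.1 5 * p.1 5 * t.1 6 * r4 - q.1 3 * t.1 4 * q.1 5 * p.1 5 * r5
  have hne : q.1 3 * t.1 4 * p.1 6 * p.1 5 * q.1 5 * t.1 5 ≠ 0 :=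
    mul_ne_zero (mul_ne_zero (mul_ne_zero (mul_ne_zero (mul_ne_zero hq3 ht4) hp6) hp5) hq5) ht5
  exact hne (by linarith)

/-! ## The upper bound for the maximum nullity -/

theorem mulVec_inl (A : Matrix ((Fin 7 × Fin 9) ⊕ Fin 7) ((Fin 7 × Fin 9) ⊕ Fin 7) ℝ)
    (hA : IsMatrixOf fano A) (z : (Fin 7 × Fin 9) ⊕ Fin 7 → ℝ) (a : Fin 7 × Fin 9) :
    A.mulVec z (Sum.inl a) = A (Sum.inl a) (Sum.inl a) * z (Sum.inl a) +
      ∑ p, A (Sum.inl a) (Sum.inr p) * z (Sum.inr p) := by
  rw [Matrix.mulVec, dotProduct, Fintype.sum_sum_type, Finset.sum_eq_single a]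
  · intro b _ hba
    have : A (Sum.inl a) (Sum.inl b) = 0 := by
      by_contra hne
      exact fano_inl_inl a b ((hA.2 _ _ (fun h => hba (Sum.inl.inj h).symm)).mp hne)
    rw [this, zero_mul]
  · intro h
    exact absurd (Finset.mem_univ _) h

/-- Some line has only copies with a nonzero diagonal entry. -/
theorem case_nonzero (A : Matrix ((Fin 7 × Fin 9) ⊕ Fin 7) ((Fin 7 × Fin 9) ⊕ Fin 7) ℝ)
    (hA : IsMatrixOf fano A) (l : Fin 7)
    (hl : ∀ c, A (Sum.inl (l, c)) (Sum.inl (l, c)) ≠ 0) : nullity A ≤ 61 := by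
  classical
  -- the coordinates at the copies of the other lines and at the points determine a null vector
  let S : Finset ((Fin 7 × Fin 9) ⊕ Fin 7) :=
    Finset.univ.filter (fun v => ∀ c, v ≠ Sum.inl (l, c))
  have hS : S.card = 61 := by
    have h1 : S = Finset.univ \ (Finset.univ.image (fun c : Fin 9 => (Sum.inl (l, c) :
        (Fin 7 × Fin 9) ⊕ Fin 7))) := by
      ext v
      simp only [S, Finset.mem_filter, Finset.mem_univ, true_and, Finset.mem_sdiff,
        Finset.mem_image, not_exists]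
      exact ⟨fun h c h' => h c h'.symm, fun h c h' => h c h'.symm⟩
    rw [h1, Finset.card_sdiff_of_subset (Finset.subset_univ _), Finset.card_image_of_injective]
    · simp
    · intro c c' h
      simpa using h
  let r : LinearMap.ker A.mulVecLin →ₗ[ℝ] (S → ℝ) :=
    (LinearMap.funLeft ℝ ℝ (fun b : S => (b : (Fin 7 × Fin 9) ⊕ Fin 7))).comp
      (Submodule.subtype _)
  have hr : Function.Injective r := by
    rw [← LinearMap.ker_eq_bot, LinearMap.ker_eq_bot']
    intro x hx
    have hz : ∀ v ∈ S, x.1 v = 0 := fun v hv => congrFun hx ⟨v, hv⟩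
    apply Subtype.ext
    funext v
    by_cases hv : v ∈ S
    · exact hz v hv
    · simp only [S, Finset.mem_filter, Finset.mem_univ, true_and, not_forall, not_not] at hv
      obtain ⟨c, rfl⟩ := hv
      have h := congrFun (LinearMap.mem_ker.mp x.2) (Sum.inl (l, c))
      rw [Matrix.mulVecLin_apply, mulVec_inl A hA, Finset.sum_eq_zero, add_zero] at h
      · rcases mul_eq_zero.mp h with h' | h'
        · exact absurd h' (hl c)
        · exact h'
      · intro p _
        rw [hz (Sum.inr p) (by simp [S]), mul_zero]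
  have := LinearMap.finrank_le_finrank_of_injective hr
  rw [nullity]
  simpa [hS] using this

/-- Every line has a copy with diagonal entry zero. -/
theorem case_zero (A : Matrix ((Fin 7 × Fin 9) ⊕ Fin 7) ((Fin 7 × Fin 9) ⊕ Fin 7) ℝ)
    (hA : IsMatrixOf fano A) (c : Fin 7 → Fin 9)
    (hc : ∀ l, A (Sum.inl (l, c l)) (Sum.inl (l, c l)) = 0) : nullity A ≤ 60 := by
  classical
  -- the matrix of the chosen copies
  let B : Matrix (Fin 7) (Fin 7) ℝ := fun l p => A (Sum.inl (l, c l)) (Sum.inr p)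
  have hB : ∀ l p, B l p ≠ 0 ↔ inc l p := fun l p =>
    hA.2 (Sum.inl (l, c l)) (Sum.inr p) (by simp)
  have hker : Module.finrank ℝ (LinearMap.ker B.mulVecLin) ≤ 2 := kernel_le B hB
  -- the projection of the null space to the points
  let π : LinearMap.ker A.mulVecLin →ₗ[ℝ] (Fin 7 → ℝ) :=
    (LinearMap.funLeft ℝ ℝ (fun p : Fin 7 => (Sum.inr p : (Fin 7 × Fin 9) ⊕ Fin 7))).comp
      (Submodule.subtype _)
  have hrange : LinearMap.range π ≤ LinearMap.ker B.mulVecLin := by
    rintro _ ⟨z, rfl⟩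
    rw [LinearMap.mem_ker, Matrix.mulVecLin_apply]
    funext l
    have h := congrFun (LinearMap.mem_ker.mp z.2) (Sum.inl (l, c l))
    rw [Matrix.mulVecLin_apply, mulVec_inl A hA, hc l, zero_mul, zero_add] at h
    exact h
  -- the part of the null space that vanishes at the points
  let E : Matrix (Fin 7) (Fin 7 × Fin 9) ℝ := fun p a => A (Sum.inr p) (Sum.inl a)
  have hE : Module.finrank ℝ (LinearMap.ker E.mulVecLin) ≤ 58 := by
    have h1 := LinearMap.finrank_range_add_finrank_ker E.mulVecLin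
    have h2 : Module.finrank ℝ (Fin 7 × Fin 9 → ℝ) = 63 := by simp
    have h3 : LinearMap.range B.transpose.mulVecLin ≤ LinearMap.range E.mulVecLin := by
      rintro _ ⟨w, rfl⟩
      refine ⟨fun a => if a.2 = c a.1 then w a.1 else 0, ?_⟩
      funext p
      rw [Matrix.mulVecLin_apply, Matrix.mulVecLin_apply, Matrix.mulVec, Matrix.mulVec,
        dotProduct, dotProduct, Fintype.sum_prod_type]
      refine Finset.sum_congr rfl fun l _ => ?_
      rw [Finset.sum_eq_single (c l)]
      · simp only [if_true, E]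
        rw [hA.1.apply]
        rfl
      · intro d _ hd
        simp [hd]
      · intro h
        exact absurd (Finset.mem_univ _) h
    have h4 := Submodule.finrank_mono h3
    have h5 : Module.finrank ℝ (LinearMap.range B.transpose.mulVecLin) =
        Module.finrank ℝ (LinearMap.range B.mulVecLin) := Matrix.rank_transpose B
    have h6 := LinearMap.finrank_range_add_finrank_ker B.mulVecLin
    have h7 : Module.finrank ℝ (Fin 7 → ℝ) = 7 := by simp
    omega
  have hkerπ : Module.finrank ℝ (LinearMap.ker π) ≤ 58 := by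
    let g : LinearMap.ker π →ₗ[ℝ] (Fin 7 × Fin 9 → ℝ) :=
      (LinearMap.funLeft ℝ ℝ (fun a : Fin 7 × Fin 9 => (Sum.inl a : (Fin 7 × Fin 9) ⊕ Fin 7))).comp
        ((Submodule.subtype _).comp (Submodule.subtype _))
    have hzero : ∀ z : LinearMap.ker π, ∀ p, z.1.1 (Sum.inr p) = 0 := fun z p =>
      congrFun (LinearMap.mem_ker.mp z.2) p
    have hg : Function.Injective g := by
      intro z z' hz
      apply Subtype.ext
      apply Subtype.ext
      funext v
      rcases v with a | p
      · exact congrFun hz a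
      · exact (hzero z p).trans (hzero z' p).symm
    have hgr : LinearMap.range g ≤ LinearMap.ker E.mulVecLin := by
      rintro _ ⟨z, rfl⟩
      rw [LinearMap.mem_ker, Matrix.mulVecLin_apply]
      funext p
      have h := congrFun (LinearMap.mem_ker.mp z.1.2) (Sum.inr p)
      rw [Matrix.mulVecLin_apply, Matrix.mulVec, dotProduct, Fintype.sum_sum_type] at h
      rw [Finset.sum_eq_zero (s := Finset.univ) (f := fun q : Fin 7 =>
        A (Sum.inr p) (Sum.inr q) * z.1.1 (Sum.inr q)) (fun q _ => by rw [hzero z q, mul_zero]),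
        add_zero] at h
      exact h
    have h1 := LinearMap.finrank_range_of_inj hg
    have h2 := Submodule.finrank_mono hgr
    omega
  have h1 := LinearMap.finrank_range_add_finrank_ker π
  have h2 := Submodule.finrank_mono hrange
  rw [nullity]
  omega

theorem nullity_fano (A : Matrix ((Fin 7 × Fin 9) ⊕ Fin 7) ((Fin 7 × Fin 9) ⊕ Fin 7) ℝ)
    (hA : IsMatrixOf fano A) : nullity A ≤ 61 := by
  by_cases h : ∃ l, ∀ c, A (Sum.inl (l, c)) (Sum.inl (l, c)) ≠ 0
  · obtain ⟨l, hl⟩ := h
    exact case_nonzero A hA l hl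
  · push Not at h
    choose c hc using h
    exact (case_zero A hA c hc).trans (by norm_num)

theorem maxNullity_le : maxNullity fano ≤ 61 := by
  refine csSup_le' ?_
  rintro k ⟨A, hA, rfl⟩
  exact nullity_fano A hA

/-! ## The remaining properties of the graph -/

theorem fano_connected : fano.Connected := by
  have hstep : ∀ (l p : Fin 7), inc l p → ∀ q, inc l q → fano.Reachable (Sum.inr p) (Sum.inr q) := by
    intro l p hp q hq
    exact ((fano_inr_inl (l, 0) p).mpr hp : fano.Adj _ _).reachable.trans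
      ((fano_inl_inr (l, 0) q).mpr hq : fano.Adj _ _).reachable
  have hpts : ∀ p q : Fin 7, fano.Reachable (Sum.inr p) (Sum.inr q) := by
    intro p q
    obtain ⟨l, hp, hq⟩ : ∃ l, inc l p ∧ inc l q := by revert p q; decide
    exact hstep l p hp q hq
  rw [SimpleGraph.connected_iff_exists_forall_reachable]
  refine ⟨Sum.inr 0, ?_⟩
  rintro (a | p)
  · exact (hpts 0 a.1).trans ((fano_inr_inl a a.1).mpr (Or.inl rfl) : fano.Adj _ _).reachable
  · exact hpts 0 p

theorem fano_degree (a : Fin 7 × Fin 9) : (fano.neighborSet (Sum.inl a)).ncard = 3 := by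
  have h : fano.neighborSet (Sum.inl a) =
      Sum.inr '' ((Finset.univ.filter (fun p => inc a.1 p) : Finset (Fin 7)) : Set (Fin 7)) := by
    ext v
    rcases v with b | p
    · simp [fano_inl_inl]
    · simp [fano_inl_inr]
  rw [h, Set.ncard_image_of_injective _ Sum.inr_injective, Set.ncard_coe_finset]
  have : ∀ l : Fin 7, (Finset.univ.filter (fun p => inc l p)).card = 3 := by decide
  exact this a.1

/-- **The answer to the question is negative.** There is a connected bipartite graph `G` with parts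
`X` and `Y`, `|X| ≥ |Y|`, in which every vertex of `X` has degree exactly three and `M(G) < Z(G)`. -/
theorem result : ∃ (X Y : Type) (_ : Fintype X) (_ : Fintype Y) (G : SimpleGraph (X ⊕ Y)),
    G.Connected ∧
    (∀ x x' : X, ¬ G.Adj (Sum.inl x) (Sum.inl x')) ∧
    (∀ y y' : Y, ¬ G.Adj (Sum.inr y) (Sum.inr y')) ∧
    Fintype.card Y ≤ Fintype.card X ∧
    (∀ x : X, (G.neighborSet (Sum.inl x)).ncard = 3) ∧
    maxNullity G < zeroForcingNumber G := by
  refine ⟨Fin 7 × Fin 9, Fin 7, inferInstance, inferInstance, fano, fano_connected,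
    fano_inl_inl, fano_inr_inr, by simp, fano_degree, ?_⟩
  exact lt_of_le_of_lt maxNullity_le (lt_of_lt_of_le (by norm_num) zeroForcing_ge)

end Pool.Agent.Results.MP_cfc379_co.FanoCounterexample
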